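import Pool.Agent.N272.Cor.Core

set_option autoImplicit false
set_option linter.unusedSectionVars false

/-!
# Corners in sets of bounded VC dimension: rows of bounded VC dimension
-/

open Finset

namespace Pool.Agent.N272.Cor

variable {G : Type} [AddCommGroup G] [Fintype G] [DecidableEq G]

/-- the row at `x` -/
def row (A : Finset (G × G)) (x : G) : Finset G := univ.filter fun y => (x, y) ∈ A

/-- the rows -/
def rows (A : Finset (G × G)) : Finset (Finset G) := univ.image (row A)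

theorem rowVC (A : Finset (G × G)) (d : ℕ) (h : (rows A).vcDim ≤ d) :
    Pool.Agent.H238R2.LR.RowVC (fun x y => decide ((x, y) ∈ A)) univ univ d := by
  intro S _ hS
  refine le_trans ?_ h
  apply Finset.Shatters.card_le_vcDim
  intro T hT
  obtain ⟨x, _, hx⟩ := hS T hT
  refine ⟨row A x, mem_image_of_mem _ (mem_univ _), ?_⟩
  ext y
  simp only [mem_inter, row, mem_filter, mem_univ, true_and]
  constructor
  · rintro ⟨h1, h2⟩
    exact (hx y h1).1 (by simpa using h2)
  · intro h1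
    exact ⟨hT h1, by simpa using (hx y (hT h1)).2 h1⟩

/-- numbers -/
theorem numbers (d : ℕ) : ∃ K : ℕ, 0 < K ∧ ∀ E : ℕ, 2 ≤ E →
    ∃ a : ℕ, (2 * a * E + 1) ^ d < 2 ^ a ∧ 2 ^ a ≤ K * E ^ (2 * d) := by
  -- polynomial versus exponential
  obtain ⟨b0, hb0, hb1⟩ : ∃ b0 : ℕ, 1 ≤ b0 ∧ ∀ b, b0 ≤ b → (5 * b) ^ d < 2 ^ b := by
    have h1 : Filter.Tendsto (fun n : ℕ => ((n : ℝ) ^ d / 2 ^ n)) Filter.atTop (nhds 0) :=
      tendsto_pow_const_div_const_pow_of_one_lt d (by norm_num)
    have h2 := h1.eventually (gt_mem_nhds (show (0 : ℝ) < 1 / 5 ^ d by positivity))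
    obtain ⟨b0, hb⟩ := Filter.eventually_atTop.1 h2
    refine ⟨max b0 1, le_max_right _ _, fun b hb' => ?_⟩
    have h3 := hb b ((le_max_left _ _).trans hb')
    rw [div_lt_div_iff₀ (by positivity) (by positivity), one_mul] at h3
    have h4 : ((5 * b : ℕ) : ℝ) ^ d < (2 : ℝ) ^ b := by
      push_cast
      rw [mul_pow]
      linarith
    exact_mod_cast h4
  refine ⟨4 ^ (b0 + 1), by positivity, fun E hE => ?_⟩
  set b : ℕ := max b0 (Nat.clog 2 (E ^ d)) with hb
  have hEd : 1 ≤ E ^ d := Nat.one_le_pow _ _ (by omega)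
  have e1 : E ^ d ≤ 2 ^ b := (Nat.le_pow_clog (by norm_num) _).trans
    (Nat.pow_le_pow_right (by norm_num) (le_max_right _ _))
  have e2 : 2 ^ b ≤ 2 ^ (b0 + 1) * E ^ d := by
    rcases le_total b0 (Nat.clog 2 (E ^ d)) with h | h
    · rw [hb, max_eq_right h]
      rcases Nat.lt_or_ge 1 (E ^ d) with h1 | h1
      · have h2 := Nat.pow_pred_clog_lt_self (b := 2) (by norm_num) h1
        have h3 : 0 < Nat.clog 2 (E ^ d) := Nat.clog_pos (by norm_num) h1
        have h4 : 2 ^ Nat.clog 2 (E ^ d) = 2 * 2 ^ (Nat.clog 2 (E ^ d)).pred := by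
          rw [← pow_succ']
          congr 1
          exact (Nat.succ_pred_eq_of_pos h3).symm
        rw [h4, pow_succ]
        have h5 : 1 ≤ 2 ^ b0 := Nat.one_le_pow _ _ (by norm_num)
        nlinarith [h2]
      · have h2 : E ^ d = 1 := le_antisymm h1 hEd
        rw [h2, Nat.clog_one_right, pow_zero, mul_one]
        exact Nat.one_le_pow _ _ (by norm_num)
    · rw [hb, max_eq_left h, pow_succ]
      have h5 : 1 ≤ 2 ^ b0 := Nat.one_le_pow _ _ (by norm_num)
      nlinarith
  refine ⟨2 * b, ?_, ?_⟩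
  · have hb2 : b0 ≤ b := le_max_left _ _
    have e3 := hb1 b hb2
    have e4 : 2 * (2 * b) * E + 1 ≤ 5 * b * E := by
      have : 1 ≤ b := hb0.trans hb2
      nlinarith
    calc (2 * (2 * b) * E + 1) ^ d ≤ (5 * b * E) ^ d := Nat.pow_le_pow_left e4 d
      _ = (5 * b) ^ d * E ^ d := mul_pow _ _ _
      _ ≤ (5 * b) ^ d * 2 ^ b := Nat.mul_le_mul_left _ e1
      _ < 2 ^ b * 2 ^ b := Nat.mul_lt_mul_of_pos_right e3 (by positivity)
      _ = 2 ^ (2 * b) := by rw [← pow_add, two_mul]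
  · calc 2 ^ (2 * b) = 2 ^ b * 2 ^ b := by rw [← pow_add, two_mul]
      _ ≤ (2 ^ (b0 + 1) * E ^ d) * (2 ^ (b0 + 1) * E ^ d) := Nat.mul_le_mul e2 e2
      _ = 4 ^ (b0 + 1) * E ^ (2 * d) := by
          rw [show (4 : ℕ) = 2 * 2 by norm_num, mul_pow, two_mul d, pow_add]
          ring

/-- maximal separated set of rows -/
theorem exists_net (A : Finset (G × G)) (d E a : ℕ) (hE : 2 ≤ E) (h : (rows A).vcDim ≤ d)
    (ha : (2 * a * E + 1) ^ d < 2 ^ a) :
    ∃ (P : Finset G) (cl : G → G), (∀ x, cl x ∈ P) ∧ P.card < 2 ^ a ∧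
      ∀ x, (E : ℝ) * dd A x (cl x) ≤ (Fintype.card G : ℝ) := by
  set F : G → G → Bool := fun x y => decide ((x, y) ∈ A) with hF
  let sep : Finset G → Prop := fun P => ∀ x ∈ P, ∀ x' ∈ P, x ≠ x' →
    (univ : Finset G).card < E * ((univ : Finset G).filter (fun y => F x y ≠ F x' y)).card
  classical
  obtain ⟨P, hP, hmax⟩ := exists_max_image ((univ : Finset G).powerset.filter sep) card
    ⟨∅, mem_filter.mpr ⟨mem_powerset.mpr (empty_subset _), by intro x hx; simp at hx⟩⟩
  rw [mem_filter, mem_powerset] at hP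
  obtain ⟨hPA, hPs⟩ := hP
  have hPc := Pool.Agent.H238R2.LR.pack F univ P univ d E a univ_nonempty hE hPA hPs
    (rowVC A d h) ha
  have hcl : ∀ x : G, ∃ p ∈ P,
      E * ((univ : Finset G).filter (fun y => F x y ≠ F p y)).card ≤ (univ : Finset G).card := by
    intro x
    by_contra hcon
    push Not at hcon
    have hxP : x ∉ P := by
      intro hxP
      have := hcon x hxP
      simp at this
    have hins : insert x P ∈ (univ : Finset G).powerset.filter sep := by
      rw [mem_filter, mem_powerset]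
      refine ⟨subset_univ _, ?_⟩
      intro u hu v hv huv
      rw [mem_insert] at hu hv
      rcases hu with rfl | hu
      · rcases hv with rfl | hv
        · exact absurd rfl huv
        · exact hcon v hv
      · rcases hv with rfl | hv
        · have := hcon u hu
          have e : ((univ : Finset G).filter (fun y => F u y ≠ F v y)) =
              ((univ : Finset G).filter (fun y => F v y ≠ F u y)) := by
            ext y; simp [ne_comm]
          rw [e]
          exact this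
        · exact hPs u hu v hv huv
    have := hmax _ hins
    rw [card_insert_of_notMem hxP] at this
    omega
  choose cl hcl1 hcl2 using hcl
  refine ⟨P, cl, hcl1, hPc, fun x => ?_⟩
  have e : dd A x (cl x) =
      (((univ : Finset G).filter (fun y => F x y ≠ F (cl x) y)).card : ℝ) := by
    unfold dd
    rw [card_filter]
    push_cast
    refine sum_congr rfl fun y _ => ?_
    simp only [ff, hF]
    by_cases h1 : (x, y) ∈ A <;> by_cases h2 : (cl x, y) ∈ A <;> simp [h1, h2]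
  rw [e]
  have := hcl2 x
  rw [card_univ] at this
  exact_mod_cast this

/-- **Polynomial number of corners, rows of bounded VC dimension.** -/
theorem rows_bound (d : ℕ) : ∃ c : ℝ, 0 < c ∧ ∀ (G : Type) [AddCommGroup G] [Fintype G]
    [DecidableEq G] (A : Finset (G × G)) (δ : ℝ), 0 < δ →
    (A.card : ℝ) = δ * (Fintype.card G : ℝ) ^ 2 → (rows A).vcDim ≤ d →
    c * δ ^ (4 * d + 3) * (Fintype.card G : ℝ) ^ 3 ≤ tot A := by
  obtain ⟨K, hK, hnum⟩ := numbers d
  refine ⟨1 / (16 * K * 17 ^ (2 * d)), by positivity, fun G _ _ _ A δ hδ hA hvc => ?_⟩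
  have hN0 : (0 : ℝ) < (Fintype.card G : ℝ) := by
    have : 0 < Fintype.card G := Fintype.card_pos
    exact_mod_cast this
  have hδ1 : δ ≤ 1 := by
    have h1 : (A.card : ℝ) ≤ (Fintype.card G : ℝ) ^ 2 := by
      have h2 : A.card ≤ Fintype.card (G × G) := card_le_univ A
      rw [Fintype.card_prod] at h2
      have h3 : (A.card : ℝ) ≤ ((Fintype.card G * Fintype.card G : ℕ) : ℝ) := by exact_mod_cast h2
      push_cast at h3
      rw [sq]
      exact h3
    rw [hA] at h1
    exact le_of_mul_le_mul_right (by linarith) (by positivity : (0:ℝ) < (Fintype.card G : ℝ) ^ 2)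
  set E : ℕ := ⌈16 / δ ^ 2⌉₊ with hE
  have hE1 : 16 / δ ^ 2 ≤ (E : ℝ) := Nat.le_ceil _
  have hE16 : (16 : ℝ) ≤ 16 / δ ^ 2 := by
    rw [le_div_iff₀ (by positivity)]
    nlinarith [pow_le_one₀ hδ.le hδ1 (n := 2)]
  have hE2 : (E : ℝ) ≤ 17 / δ ^ 2 := by
    have h1 : (E : ℝ) < 16 / δ ^ 2 + 1 := Nat.ceil_lt_add_one (by positivity)
    have h2 : (1 : ℝ) ≤ 1 / δ ^ 2 := by
      rw [le_div_iff₀ (by positivity), one_mul]
      exact pow_le_one₀ hδ.le hδ1
    have h3 : (17 : ℝ) / δ ^ 2 = 16 / δ ^ 2 + 1 / δ ^ 2 := by ring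
    rw [h3]
    linarith
  have hE3 : 2 ≤ E := by
    have : (2 : ℝ) ≤ (E : ℝ) := by linarith
    exact_mod_cast this
  obtain ⟨a, ha1, ha2⟩ := hnum E hE3
  obtain ⟨P, cl, hcl, hPc, hclose⟩ := exists_net A d E a hE3 hvc ha1
  have hEpos : (0 : ℝ) < E := by
    have : (2 : ℝ) ≤ (E : ℝ) := by exact_mod_cast hE3
    linarith
  have hM : (P.card : ℝ) ≤ (K : ℝ) * (E : ℝ) ^ (2 * d) := by
    have : P.card ≤ K * E ^ (2 * d) := hPc.le.trans ha2
    exact_mod_cast this
  have hcore := core A P cl hcl ((K : ℝ) * (E : ℝ) ^ (2 * d)) ((Fintype.card G : ℝ) / E) δ hM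
    (by positivity) hδ hA (by
      rw [mul_div_assoc', div_le_iff₀ hEpos]
      rw [div_le_iff₀ (by positivity)] at hE1
      nlinarith) (fun x => by
      rw [le_div_iff₀ hEpos]
      have := hclose x
      linarith)
  have hEp : (E : ℝ) ^ (2 * d) ≤ 17 ^ (2 * d) / δ ^ (4 * d) := by
    calc (E : ℝ) ^ (2 * d) ≤ (17 / δ ^ 2) ^ (2 * d) := pow_le_pow_left₀ hEpos.le hE2 _
      _ = 17 ^ (2 * d) / δ ^ (4 * d) := by
          rw [div_pow, ← pow_mul]
          congr 2
          ring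
  have htot : 0 ≤ tot A := by
    unfold tot
    exact sum_nonneg fun _ _ => sum_nonneg fun _ _ => sum_nonneg fun _ _ =>
      mul_nonneg (mul_nonneg (ff_nonneg _ _ _) (ff_nonneg _ _ _)) (ff_nonneg _ _ _)
  have h1 : δ ^ 3 * (Fintype.card G : ℝ) ^ 3 ≤
      16 * (K * (17 ^ (2 * d) / δ ^ (4 * d))) * tot A := by
    refine hcore.trans ?_
    gcongr
  have h2 : δ ^ (4 * d + 3) * (Fintype.card G : ℝ) ^ 3 ≤ 16 * K * 17 ^ (2 * d) * tot A := by
    have h3 := mul_le_mul_of_nonneg_left h1 (by positivity : (0 : ℝ) ≤ δ ^ (4 * d))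
    have h4 : δ ^ (4 * d) * (16 * (K * (17 ^ (2 * d) / δ ^ (4 * d))) * tot A) =
        16 * K * 17 ^ (2 * d) * tot A := by
      field_simp
    rw [h4] at h3
    calc δ ^ (4 * d + 3) * (Fintype.card G : ℝ) ^ 3 =
        δ ^ (4 * d) * (δ ^ 3 * (Fintype.card G : ℝ) ^ 3) := by rw [pow_add]; ring
      _ ≤ _ := h3
  have hKpos : (0 : ℝ) < K := by exact_mod_cast hK
  rw [mul_assoc, one_div, inv_mul_le_iff₀ (by positivity)]
  exact h2

end Pool.Agent.N272.Cor
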