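import Pool.Agent.H238R2.LR.Pack

set_option autoImplicit false
set_option linter.unusedSectionVars false

/-!
# Corners in sets of bounded VC dimension: the counting argument
-/

open Finset

namespace Pool.Agent.N272.Cor

variable {G : Type} [AddCommGroup G] [Fintype G] [DecidableEq G]

/-- indicator function -/
def ff (A : Finset (G × G)) (x y : G) : ℝ := if (x, y) ∈ A then 1 else 0

theorem ff_nonneg (A : Finset (G × G)) (x y : G) : 0 ≤ ff A x y := by
  unfold ff; split_ifs <;> norm_num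

theorem ff_le_one (A : Finset (G × G)) (x y : G) : ff A x y ≤ 1 := by
  unfold ff; split_ifs <;> norm_num

/-- all corners, the trivial ones included -/
noncomputable def tot (A : Finset (G × G)) : ℝ :=
  ∑ x' : G, ∑ y : G, ∑ x : G, ff A x y * ff A x' y * ff A x' (y + x - x')

theorem point_le (A : Finset (G × G)) (x x' y : G) :
    ff A x y * ff A x' (y + x - x') ≤
      |ff A x y - ff A x' y| + ff A x y * ff A x' y * ff A x' (y + x - x') := by
  have h1 := ff_nonneg A x' (y + x - x')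
  have h2 := ff_le_one A x' (y + x - x')
  unfold ff at *
  split_ifs at * <;> simp

/-- distance of rows -/
noncomputable def dd (A : Finset (G × G)) (x x' : G) : ℝ := ∑ y : G, |ff A x y - ff A x' y|

theorem dd_triangle (A : Finset (G × G)) (x x' p : G) : dd A x x' ≤ dd A x p + dd A x' p := by
  unfold dd
  rw [← sum_add_distrib]
  refine sum_le_sum fun y _ => ?_
  have := abs_sub_le (ff A x y) (ff A p y) (ff A x' y)
  rw [abs_sub_comm (ff A p y)] at this
  exact this

theorem class_le (A : Finset (G × G)) (X : Finset G) (D : ℝ)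
    (hD : ∀ x ∈ X, ∀ x' ∈ X, dd A x x' ≤ D) :
    (∑ x ∈ X, ∑ y : G, ff A x y) ^ 2 ≤ (Fintype.card G : ℝ) * ((X.card : ℝ) ^ 2 * D +
      ∑ x ∈ X, ∑ x' ∈ X, ∑ y : G, ff A x y * ff A x' y * ff A x' (y + x - x')) := by
  have h1 : ∑ x ∈ X, ∑ y : G, ff A x y = ∑ s : G, ∑ x ∈ X, ff A x (s - x) := by
    have e0 : ∑ s : G, ∑ x ∈ X, ff A x (s - x) = ∑ x ∈ X, ∑ s : G, ff A x (s - x) := sum_comm
    rw [e0]
    refine sum_congr rfl fun x _ => ?_
    exact (Equiv.sum_comp (Equiv.subRight x) (fun y => ff A x y)).symm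
  have h2 : (∑ s : G, ∑ x ∈ X, ff A x (s - x)) ^ 2 ≤
      (Fintype.card G : ℝ) * ∑ s : G, (∑ x ∈ X, ff A x (s - x)) ^ 2 := by
    have := sq_sum_le_card_mul_sum_sq (s := (univ : Finset G))
      (f := fun s => ∑ x ∈ X, ff A x (s - x))
    simpa using this
  have h3 : ∑ s : G, (∑ x ∈ X, ff A x (s - x)) ^ 2 =
      ∑ x ∈ X, ∑ x' ∈ X, ∑ y : G, ff A x y * ff A x' (y + x - x') := by
    have e1 : ∀ s : G, (∑ x ∈ X, ff A x (s - x)) ^ 2 =
        ∑ x ∈ X, ∑ x' ∈ X, ff A x (s - x) * ff A x' (s - x') := by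
      intro s
      rw [sq, sum_mul_sum]
    rw [sum_congr rfl fun s _ => e1 s, sum_comm]
    refine sum_congr rfl fun x _ => ?_
    rw [sum_comm]
    refine sum_congr rfl fun x' _ => ?_
    rw [← Equiv.sum_comp (Equiv.subRight x) (fun y => ff A x y * ff A x' (y + x - x'))]
    refine sum_congr rfl fun s _ => ?_
    simp only [Equiv.subRight_apply, sub_add_cancel]
  have h4 : ∑ x ∈ X, ∑ x' ∈ X, ∑ y : G, ff A x y * ff A x' (y + x - x') ≤
      (X.card : ℝ) ^ 2 * D +
      ∑ x ∈ X, ∑ x' ∈ X, ∑ y : G, ff A x y * ff A x' y * ff A x' (y + x - x') := by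
    have e2 : (X.card : ℝ) ^ 2 * D = ∑ x ∈ X, ∑ x' ∈ X, D := by
      simp only [sum_const, nsmul_eq_mul]
      ring
    rw [e2, ← sum_add_distrib]
    refine sum_le_sum fun x hx => ?_
    rw [← sum_add_distrib]
    refine sum_le_sum fun x' hx' => ?_
    calc ∑ y : G, ff A x y * ff A x' (y + x - x')
        ≤ ∑ y : G, (|ff A x y - ff A x' y| +
            ff A x y * ff A x' y * ff A x' (y + x - x')) :=
          sum_le_sum fun y _ => point_le A x x' y
      _ = dd A x x' + ∑ y : G, ff A x y * ff A x' y * ff A x' (y + x - x') := by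
          rw [sum_add_distrib]; rfl
      _ ≤ D + ∑ y : G, ff A x y * ff A x' y * ff A x' (y + x - x') := by
          gcongr
          exact hD x hx x' hx'
  rw [h1]
  refine h2.trans ?_
  rw [h3]
  exact mul_le_mul_of_nonneg_left h4 (Nat.cast_nonneg _)

/-- the classes -/
def Xc (cl : G → G) (p : G) : Finset G := univ.filter fun x => cl x = p

theorem sum_tot (A : Finset (G × G)) (cl : G → G) (B : Finset G) :
    ∑ p ∈ B, ∑ x ∈ Xc cl p, ∑ x' ∈ Xc cl p, ∑ y : G,
      ff A x y * ff A x' y * ff A x' (y + x - x') ≤ tot A := by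
  have hnn : ∀ x x' y : G, 0 ≤ ff A x y * ff A x' y * ff A x' (y + x - x') := fun x x' y =>
    mul_nonneg (mul_nonneg (ff_nonneg _ _ _) (ff_nonneg _ _ _)) (ff_nonneg _ _ _)
  have h1 : tot A = ∑ x : G, ∑ x' : G, ∑ y : G, ff A x y * ff A x' y * ff A x' (y + x - x') := by
    unfold tot
    rw [sum_comm' (s := univ) (t := fun _ => univ) (t' := univ) (s' := fun _ => univ) (by simp)]
    rw [sum_congr rfl fun y _ => sum_comm, sum_comm]
    exact sum_congr rfl fun x _ => sum_comm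
  rw [h1]
  calc ∑ p ∈ B, ∑ x ∈ Xc cl p, ∑ x' ∈ Xc cl p, ∑ y : G,
        ff A x y * ff A x' y * ff A x' (y + x - x')
      ≤ ∑ p ∈ B, ∑ x ∈ Xc cl p, ∑ x' : G, ∑ y : G,
        ff A x y * ff A x' y * ff A x' (y + x - x') := by
        refine sum_le_sum fun p _ => sum_le_sum fun x _ => ?_
        exact sum_le_sum_of_subset_of_nonneg (subset_univ _) fun x' _ _ =>
          sum_nonneg fun y _ => hnn x x' y
    _ ≤ ∑ p : G, ∑ x ∈ Xc cl p, ∑ x' : G, ∑ y : G,
        ff A x y * ff A x' y * ff A x' (y + x - x') :=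
        sum_le_sum_of_subset_of_nonneg (subset_univ _) fun p _ _ =>
          sum_nonneg fun x _ => sum_nonneg fun x' _ => sum_nonneg fun y _ => hnn x x' y
    _ = ∑ x : G, ∑ x' : G, ∑ y : G, ff A x y * ff A x' y * ff A x' (y + x - x') := by
        unfold Xc
        exact sum_fiberwise univ cl _

theorem card_eq (A : Finset (G × G)) : (A.card : ℝ) = ∑ x : G, ∑ y : G, ff A x y := by
  have h : (A.card : ℝ) = ∑ q : G × G, if q ∈ A then (1 : ℝ) else 0 := by
    rw [sum_ite_mem]; simp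
  rw [h, Fintype.sum_prod_type]
  rfl

/-- **Counting corners.** -/
theorem core (A : Finset (G × G)) (P : Finset G) (cl : G → G) (hcl : ∀ x, cl x ∈ P)
    (M D δ : ℝ) (hM : (P.card : ℝ) ≤ M) (hM0 : 0 < M) (hδ : 0 < δ)
    (hA : (A.card : ℝ) = δ * (Fintype.card G : ℝ) ^ 2)
    (hD : 16 * D ≤ δ ^ 2 * (Fintype.card G : ℝ))
    (hclose : ∀ x, dd A x (cl x) ≤ D) :
    δ ^ 3 * (Fintype.card G : ℝ) ^ 3 ≤ 16 * M * tot A := by
  set N : ℝ := (Fintype.card G : ℝ) with hN
  have hN0 : 0 < N := by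
    have : 0 < Fintype.card G := Fintype.card_pos
    rw [hN]; exact_mod_cast this
  set a : G → ℝ := fun p => ∑ x ∈ Xc cl p, ∑ y : G, ff A x y with ha
  set τ : ℝ := δ / (2 * M) with hτ
  have hτ0 : 0 < τ := by positivity
  set B : Finset G := P.filter fun p => τ * N ≤ ((Xc cl p).card : ℝ) with hB
  have hrow : ∀ x : G, ∑ y : G, ff A x y ≤ N := by
    intro x
    calc ∑ y : G, ff A x y ≤ ∑ y : G, (1 : ℝ) := sum_le_sum fun y _ => ff_le_one A x y
      _ = N := by simp [hN]
  have ha_le : ∀ p, a p ≤ (Xc cl p).card * N := by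
    intro p
    calc a p ≤ ∑ x ∈ Xc cl p, N := sum_le_sum fun x _ => hrow x
      _ = (Xc cl p).card * N := by simp
  have hsumP : ∑ p ∈ P, a p = A.card := by
    rw [card_eq]
    have : ∑ p ∈ P, a p = ∑ x : G, ∑ y : G, ff A x y := by
      simp only [ha, Xc]
      exact sum_fiberwise_of_maps_to (fun x _ => hcl x) _
    exact this
  have hsumX : ∑ p ∈ B, ((Xc cl p).card : ℝ) ≤ N := by
    calc ∑ p ∈ B, ((Xc cl p).card : ℝ) ≤ ∑ p : G, ((Xc cl p).card : ℝ) :=
          sum_le_sum_of_subset_of_nonneg (subset_univ _) fun _ _ _ => Nat.cast_nonneg _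
      _ = N := by
          have := card_eq_sum_card_fiberwise (f := cl) (s := (univ : Finset G)) (t := univ)
            (by simp)
          rw [hN, ← card_univ, this]
          push_cast
          rfl
  -- the small classes
  have hsmall : ∑ p ∈ P.filter (fun p => ¬ τ * N ≤ ((Xc cl p).card : ℝ)), a p ≤ A.card / 2 := by
    calc ∑ p ∈ P.filter (fun p => ¬ τ * N ≤ ((Xc cl p).card : ℝ)), a p
        ≤ ∑ p ∈ P.filter (fun p => ¬ τ * N ≤ ((Xc cl p).card : ℝ)), τ * N * N := by
          refine sum_le_sum fun p hp => ?_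
          rw [mem_filter, not_le] at hp
          refine (ha_le p).trans ?_
          exact mul_le_mul_of_nonneg_right hp.2.le hN0.le
      _ ≤ ∑ p ∈ P, τ * N * N := by
          refine sum_le_sum_of_subset_of_nonneg (filter_subset _ _) fun _ _ _ => by positivity
      _ = P.card * (τ * N * N) := by simp
      _ ≤ M * (τ * N * N) := by
          refine mul_le_mul_of_nonneg_right hM (by positivity)
      _ = A.card / 2 := by
          rw [hA, hτ]
          field_simp
  have hbig : (A.card : ℝ) / 2 ≤ ∑ p ∈ B, a p := by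
    have := sum_filter_add_sum_filter_not P (fun p => τ * N ≤ ((Xc cl p).card : ℝ)) a
    rw [hsumP] at this
    rw [hB]
    linarith
  -- class bound
  have hcl2 : ∀ p, a p ^ 2 ≤ N * (((Xc cl p).card : ℝ) ^ 2 * (2 * D) +
      ∑ x ∈ Xc cl p, ∑ x' ∈ Xc cl p, ∑ y : G, ff A x y * ff A x' y * ff A x' (y + x - x')) := by
    intro p
    refine class_le A (Xc cl p) (2 * D) fun x hx x' hx' => ?_
    unfold Xc at hx hx'
    rw [mem_filter] at hx hx'
    have h1 := hclose x
    have h2 := hclose x'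
    rw [hx.2] at h1
    rw [hx'.2] at h2
    have := dd_triangle A x x' p
    linarith
  have hnn : ∀ p, 0 ≤ ∑ x ∈ Xc cl p, ∑ x' ∈ Xc cl p, ∑ y : G,
      ff A x y * ff A x' y * ff A x' (y + x - x') := fun p =>
    sum_nonneg fun x _ => sum_nonneg fun x' _ => sum_nonneg fun y _ =>
      mul_nonneg (mul_nonneg (ff_nonneg _ _ _) (ff_nonneg _ _ _)) (ff_nonneg _ _ _)
  have hBpos : ∀ p ∈ B, 0 < ((Xc cl p).card : ℝ) := by
    intro p hp
    rw [hB, mem_filter] at hp
    exact lt_of_lt_of_le (by positivity) hp.2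
  have hdiv : ∀ p ∈ B, a p ^ 2 / ((Xc cl p).card : ℝ) ≤ N * (2 * D) * ((Xc cl p).card : ℝ) +
      (1 / τ) * ∑ x ∈ Xc cl p, ∑ x' ∈ Xc cl p, ∑ y : G,
        ff A x y * ff A x' y * ff A x' (y + x - x') := by
    intro p hp
    have hpos := hBpos p hp
    have hp2 : τ * N ≤ ((Xc cl p).card : ℝ) := by
      rw [hB, mem_filter] at hp
      exact hp.2
    rw [div_le_iff₀ hpos]
    refine (hcl2 p).trans ?_
    have h5 : N ≤ (1 / τ) * ((Xc cl p).card : ℝ) := by
      rw [div_mul_eq_mul_div, one_mul, le_div_iff₀ hτ0]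
      linarith
    nlinarith [mul_le_mul_of_nonneg_right h5 (hnn p)]
  have hCS : (∑ p ∈ B, a p) ^ 2 / ∑ p ∈ B, ((Xc cl p).card : ℝ) ≤
      ∑ p ∈ B, a p ^ 2 / ((Xc cl p).card : ℝ) := by
    exact sq_sum_div_le_sum_sq_div B a hBpos
  have hsum2 : ∑ p ∈ B, a p ^ 2 / ((Xc cl p).card : ℝ) ≤ N * (2 * D) * N + (1 / τ) * tot A := by
    refine (sum_le_sum hdiv).trans ?_
    rw [sum_add_distrib, ← mul_sum, ← mul_sum]
    have hD0 : 0 ≤ D := by
      have h := hclose 0
      refine le_trans ?_ h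
      exact sum_nonneg fun y _ => abs_nonneg _
    have h6 := sum_tot A cl B
    gcongr
  -- positivity of the total
  have hapos : 0 < (A.card : ℝ) := by rw [hA]; positivity
  have hBs : 0 < ∑ p ∈ B, a p := by linarith
  have hXs : 0 < ∑ p ∈ B, ((Xc cl p).card : ℝ) := by
    rcases B.eq_empty_or_nonempty with h | h
    · rw [h, sum_empty] at hBs
      exact absurd hBs (lt_irrefl _)
    · exact sum_pos hBpos h
  have h7 : (A.card / 2 : ℝ) ^ 2 / N ≤ (∑ p ∈ B, a p) ^ 2 / ∑ p ∈ B, ((Xc cl p).card : ℝ) := by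
    refine div_le_div₀ (by positivity) ?_ hXs hsumX
    exact pow_le_pow_left₀ (by positivity) hbig 2
  have h8 : (A.card / 2 : ℝ) ^ 2 / N ≤ N * (2 * D) * N + (1 / τ) * tot A :=
    h7.trans (hCS.trans hsum2)
  rw [hA] at h8
  have h9 : (δ * N ^ 2 / 2) ^ 2 / N = δ ^ 2 * N ^ 3 / 4 := by
    field_simp
    ring
  rw [h9] at h8
  have h10 : N * (2 * D) * N ≤ δ ^ 2 * N ^ 3 / 8 := by nlinarith [sq_nonneg N, hD]
  have h11 : δ ^ 2 * N ^ 3 / 8 ≤ (1 / τ) * tot A := by linarith
  have h12 : (1 / τ) = 2 * M / δ := by rw [hτ]; field_simp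
  rw [h12, div_mul_eq_mul_div, le_div_iff₀ hδ] at h11
  nlinarith [h11]

end Pool.Agent.N272.Cor
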